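import Mathlib
import Pool.Agent.Helper949.AC.Final
import Pool.Agent.Helper949.AC.Bounds

/-
Exact asymptotics of the average state complexity of the intersection of two random regular
languages.

`A` is a finite alphabet with at least two letters.  `R A n` is the set of all regular languages
over `A` whose minimal complete deterministic automaton has exactly `n` states, and `E A n` is the
mean of the state complexity of `L ⊓ L'` over all pairs `(L, L')` in `R A n × R A n`
(two independent uniformly random elements of the finite set `R A n`).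
-/

namespace Pool.Agent.Results.MP_6663ab_lc.BranchingConstant

open Filter Topology Asymptotics

set_option autoImplicit false

/-- State complexity of a language: the least number of states of a complete deterministic
automaton recognising it. -/
noncomputable def sc {A : Type} (L : Language A) : ℕ :=
  sInf {n | ∃ M : DFA A (Fin n), M.accepts = L}

/-- The regular languages over `A` of state complexity `n`. -/
def R (A : Type) (n : ℕ) : Set (Language A) := {L | L.IsRegular ∧ sc L = n}

/-- The expected state complexity of the intersection of two independent uniformly random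
languages of state complexity `n`. -/
noncomputable def E (A : Type) (n : ℕ) : ℝ :=
  (∑ᶠ p ∈ (R A n) ×ˢ (R A n), (sc (p.1 ⊓ p.2) : ℝ)) / ((R A n).ncard : ℝ)^2

/-- The probability that a Poisson random variable of mean `i` takes the value `x`. -/
noncomputable def pois (i x : ℕ) : ℝ := Real.exp (-(i : ℝ)) * (i : ℝ) ^ x / (x.factorial : ℝ)

/-- Extinction probabilities of the following branching process.  Individuals have a type
`(i, j)` in `ℕ × ℕ`; an individual with `i = 0` or `j = 0` is dead and has no children, a living
individual of type `(i, j)` has exactly `k` children (one for each letter), whose types are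
independent pairs `(X, Y)` with `X` and `Y` independent Poisson variables of means `i` and `j`.
`die k g i j` is the probability that a process started with one individual of type `(i, j)` has
no living individual in generation `g`.  (For `i = 0` or `j = 0` the recursion gives the value
`1`.) -/
noncomputable def die (k : ℕ) : ℕ → ℕ → ℕ → ℝ
  | 0, i, j => if i = 0 ∨ j = 0 then 1 else 0
  | g + 1, i, j => (∑' x : ℕ, ∑' y : ℕ, pois i x * pois j y * die k g x y) ^ k

theorem die_eq (k : ℕ) : ∀ g i j : ℕ, die k g i j = AC.aa k 1 0 g i j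
  | 0, i, j => by
      unfold die AC.aa
      by_cases hi : i = 0
      · subst hi; simp
      · by_cases hj : j = 0
        · subst hj; simp
        · simp [hi, hj]
  | g + 1, i, j => by
      unfold die AC.aa
      congr 1
      refine tsum_congr (fun x => tsum_congr (fun y => ?_))
      rw [die_eq k g x y]
      rfl

/-- **Theorem.** Let `A` be a finite alphabet with `k ≥ 2` letters.  Let `w` be the unique solution
in `(0, 1)` of `w = 1 - exp (-k w)` (the survival probability of a Galton-Watson process with
Poisson offspring of mean `k`), and let `s` be the survival probability of the above branching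
process started with one individual of type `(1, 1)`.  Then `0 < s ≤ w ^ 2` and
`E_n(A) ~ (s / w ^ 2) n ^ 2` as `n → ∞`. -/
theorem result (A : Type) [Finite A] (hA : 2 ≤ Nat.card A) :
    (∀ n : ℕ, 1 ≤ n → (R A n).Finite ∧ (R A n).Nonempty) ∧
    ∃ w s : ℝ,
      (0 < w ∧ w < 1 ∧ w = 1 - Real.exp (-((Nat.card A : ℝ) * w)) ∧
        ∀ w' : ℝ, 0 < w' → w' < 1 → w' = 1 - Real.exp (-((Nat.card A : ℝ) * w')) → w' = w) ∧
      Antitone (fun g : ℕ => 1 - die (Nat.card A) g 1 1) ∧
      Tendsto (fun g : ℕ => 1 - die (Nat.card A) g 1 1) atTop (𝓝 s) ∧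
      0 < s ∧ s ≤ w ^ 2 ∧
      Tendsto (fun n : ℕ => E A n / (n:ℝ) ^ 2) atTop (𝓝 (s / w ^ 2)) ∧
      (fun n : ℕ => E A n) ~[atTop] (fun n : ℕ => s / w ^ 2 * (n:ℝ) ^ 2) := by
  haveI : Nonempty A := (Nat.card_pos_iff.1 (by omega)).1
  refine ⟨fun n hn => ⟨SI.R_finite A n, SI.R_nonempty A n hn⟩, ?_⟩
  obtain ⟨w, ⟨hw0, hw1, hw⟩, hu⟩ := AC.w_unique (Nat.card A) hA
  obtain ⟨s, hs0, hs1, hs, hE⟩ := AC.limit_E (Nat.card A) hA w hw0 hw1 hw
  have hE' : Tendsto (fun n : ℕ => E A n / (n:ℝ) ^ 2) atTop (𝓝 (s / w ^ 2)) := by
    refine hE.congr (fun n => ?_)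
    have : E A n = SI.E (Fin (Nat.card A)) n :=
      SI.E_map A (Fin (Nat.card A)) (Finite.equivFin A) n
    rw [this]
  have hw2 : (0:ℝ) < w ^ 2 := by positivity
  have hlow : (1:ℝ) / 12800 ≤ s / w ^ 2 := by
    refine ge_of_tendsto hE' ?_
    filter_upwards [AC.E_lower A hA, eventually_ge_atTop 1] with n hn h1
    have hn0 : (0:ℝ) < (n:ℝ) ^ 2 := by
      have : (0:ℝ) < n := by exact_mod_cast h1
      positivity
    rw [le_div_iff₀ hn0]
    have : E A n = SI.E A n := rfl
    rw [this]
    linarith
  have hup : s / w ^ 2 ≤ 1 := by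
    refine le_of_tendsto hE' ?_
    filter_upwards [eventually_ge_atTop 1] with n h1
    have hn0 : (0:ℝ) < (n:ℝ) ^ 2 := by
      have : (0:ℝ) < n := by exact_mod_cast h1
      positivity
    rw [div_le_one hn0]
    exact (AC.E_bounds A n h1).2
  have hspos : 0 < s := by
    have h1 : 0 < s / w ^ 2 := by linarith
    have := mul_pos h1 hw2
    rwa [div_mul_cancel₀ _ (ne_of_gt hw2)] at this
  refine ⟨w, s, ⟨hw0, hw1, hw, fun w' h0 h1 h => hu w' ⟨h0, h1, h⟩⟩, ?_, ?_, hspos, ?_, hE', ?_⟩
  · refine antitone_nat_of_succ_le (fun g => ?_)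
    rw [die_eq, die_eq]
    have := AC.aa_mono_g (Nat.card A) g 1 1
    linarith
  · refine hs.congr (fun g => ?_)
    rw [die_eq]
  · rwa [div_le_one hw2] at hup
  · have hc : s / w ^ 2 ≠ 0 := by positivity
    have hne : ∀ᶠ n : ℕ in atTop, s / w ^ 2 * (n:ℝ) ^ 2 ≠ 0 := by
      filter_upwards [eventually_ge_atTop 1] with n h1
      have : (0:ℝ) < n := by exact_mod_cast h1
      positivity
    rw [isEquivalent_iff_tendsto_one hne]
    have h1 : Tendsto (fun n : ℕ => (E A n / (n:ℝ) ^ 2) / (s / w ^ 2)) atTop
        (𝓝 ((s / w ^ 2) / (s / w ^ 2))) := hE'.div_const _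
    rw [div_self hc] at h1
    refine h1.congr (fun n => ?_)
    simp only [Pi.div_apply]
    rw [div_div, mul_comm]

end Pool.Agent.Results.MP_6663ab_lc.BranchingConstant
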