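import Mathlib
import Pool.Agent.Helper513.SI.M6
import Pool.Agent.Helper513.SI.Jc
import Pool.Agent.Helper513.AS.HF3
import Pool.Agent.Helper513.AS.D5
import Pool.Agent.Helper513.AS.C0

/-
Average state complexity of the intersection of two random regular languages: exact asymptotics.

`A` is a finite alphabet with `k ≥ 2` letters.  `R A n` is the set of all regular languages
over `A` whose minimal complete deterministic automaton has exactly `n` states, and `E A n` is the
mean of the state complexity of `L ⊓ L'` over all pairs `(L, L')` in `R A n × R A n`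
(two independent uniformly random elements of the finite set `R A n`).

Theorem: `E A n ~ c n²` with `0 < c < 1`, where `c` depends only on `k` and is the limit of the
explicit decreasing sequence `alpha k lam m`, a finite expression in exponentials for every `m`.

Meaning of `alpha`: consider the Galton-Watson tree whose offspring law is the Poisson law of
parameter `lam` conditioned to be positive (`lam` is the positive root of `lam = k (1 - exp (-lam))`,
so that the mean offspring is `k`), every edge carrying an independent uniform letter among `k`.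
Each vertex of depth `m` has a word of length `m` (letters on the path from the root).
`phi k lam m U` is the probability that the words of all the vertices of depth `m` are in `U`,
`nu k lam m S` is the probability that the set of these words is exactly `S`, and `alpha k lam m`
is the probability that two independent such trees have a common word of length `m`.
So `c` is the probability that two independent trees have common words of every length.
-/

namespace Pool.Agent.Results.MP_6663ab_lc.ExactAsymptotics

open Filter Topology Asymptotics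

set_option autoImplicit false

/-- State complexity of a language: the least number of states of a complete deterministic
automaton recognising it. -/
noncomputable def sc {A : Type} (L : Language A) : ℕ :=
  sInf {n | ∃ M : DFA A (Fin n), M.accepts = L}

/-- The regular languages over `A` of state complexity `n`. -/
def R (A : Type) (n : ℕ) : Set (Language A) := {L | L.IsRegular ∧ sc L = n}

/-- The expected state complexity of the intersection of two independent uniformly random
languages of state complexity `n`. -/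
noncomputable def E (A : Type) (n : ℕ) : ℝ :=
  (∑ᶠ p ∈ (R A n) ×ˢ (R A n), (sc (p.1 ⊓ p.2) : ℝ)) / ((R A n).ncard : ℝ)^2

/-- The words of length `m` over the alphabet `{0, ..., k-1}`. -/
def words (k : ℕ) : ℕ → Finset (List (Fin k))
  | 0 => {[]}
  | m + 1 => (Finset.univ ×ˢ words k m).image (fun p => p.1 :: p.2)

open Classical in
/-- `phi k lam 0 U = 1` if the empty word is in `U` and `0` otherwise;
`phi k lam (m+1) U = (exp ((lam/k) ∑_a phi k lam m {v | a v ∈ U}) - 1) / (exp lam - 1)`. -/
noncomputable def phi (k : ℕ) (lam : ℝ) : ℕ → Set (List (Fin k)) → ℝ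
  | 0, U => if [] ∈ U then 1 else 0
  | m + 1, U => (Real.exp (lam / k * ∑ a : Fin k, phi k lam m {v | a :: v ∈ U}) - 1) /
      (Real.exp lam - 1)

/-- Moebius inversion of `phi` over the subsets of `S`. -/
noncomputable def nu (k : ℕ) (lam : ℝ) (m : ℕ) (S : Finset (List (Fin k))) : ℝ :=
  ∑ U ∈ S.powerset, (-1 : ℝ) ^ (S \ U).card * phi k lam m (U : Set (List (Fin k)))

/-- `alpha m = 1 - ∑_S nu m S * phi m (complement of S)`, `S` ranging over the sets of words of
length `m`. -/
noncomputable def alpha (k : ℕ) (lam : ℝ) (m : ℕ) : ℝ :=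
  1 - ∑ S ∈ (words k m).powerset,
    nu k lam m S * phi k lam m (((words k m) \ S : Finset (List (Fin k))) : Set (List (Fin k)))

theorem E_eq (A : Type) (n : ℕ) : E A n = SI.E A n := rfl

theorem words_eq (k m : ℕ) : words k m = AS.wd k m := by
  induction m with
  | zero => rfl
  | succ m ih => simp only [words, AS.wd, ih]

open Classical in
theorem phi_eq (k : ℕ) (lam : ℝ) (m : ℕ) : ∀ (U : Set (List (Fin k))),
    phi k lam m U = AS.Phi k lam m (fun v => if v ∈ U then 1 else 0) := by
  induction m with
  | zero => intro U; rfl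
  | succ m ih =>
    intro U
    simp only [phi, AS.Phi, ih]
    rfl

theorem phi_ind (k : ℕ) (lam : ℝ) (m : ℕ) (U : Finset (List (Fin k))) :
    phi k lam m (U : Set (List (Fin k))) = AS.Phi k lam m (AS.ind U) := by
  classical
  rw [phi_eq]
  congr 1
  funext v
  unfold AS.ind
  simp only [Finset.mem_coe]

theorem alpha_eq (k : ℕ) (hk : 1 ≤ k) (lam : ℝ) (h0 : 0 < lam) (m : ℕ) :
    alpha k lam m = AS.al k lam m := by
  unfold AS.al
  rw [AS.al_eq k hk lam h0 m]
  unfold alpha nu AS.nu
  simp only [phi_ind, words_eq]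

/-- `alpha 1 < 1` -/
theorem al_one_lt (k : ℕ) (hk : 2 ≤ k) (lam : ℝ) (h0 : 0 < lam) : AS.al k lam 1 < 1 := by
  classical
  obtain ⟨ε, hε, h⟩ := AS.kill k hk lam h0 2
  have h1 := h 0 Set.univ (by
    intro x _
    have hcnt : ∀ (τ : AS.Tr k 0) (v : List (Fin k)), AS.cnt 0 τ v ≤ 1 := by
      intro τ v
      cases v with
      | nil => exact le_refl _
      | cons a v => exact Nat.zero_le _
    calc ∑ v ∈ (AS.wd k 0).filter (fun v => 0 < AS.cnt 0 x.1 v ∧ 0 < AS.cnt 0 x.2 v),
          (AS.cnt 0 x.1 v + AS.cnt 0 x.2 v)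
        ≤ ∑ v ∈ AS.wd k 0, (AS.cnt 0 x.1 v + AS.cnt 0 x.2 v) :=
          Finset.sum_le_sum_of_subset (Finset.filter_subset _ _)
      _ ≤ ∑ v ∈ AS.wd k 0, 2 := Finset.sum_le_sum (fun v _ => by
          have a1 := hcnt x.1 v
          have a2 := hcnt x.2 v
          omega)
      _ = 2 := by simp [AS.wd])
  rw [(AS.P2_univ k (by omega) lam h0 0).1, mul_one] at h1
  have h2 : AS.P2 k lam (1 + 0) {x | AS.alive (1 + 0) x} +
      AS.P2 k lam (1 + 0) {x | (AS.trunc 0 x.1, AS.trunc 0 x.2) ∈ (Set.univ : Set (AS.Tr k 0 × AS.Tr k 0)) ∧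
        ¬ AS.alive (1 + 0) x} ≤ 1 := by
    rw [← (AS.P2_union k (by omega) lam h0 (1 + 0) _ _).2 (by
      rw [Set.disjoint_left]
      intro x hx hx'
      exact hx'.2 hx)]
    exact ((AS.P2_univ k (by omega) lam h0 (1 + 0)).2 _).2
  have h3 : AS.al k lam 1 = AS.P2 k lam (1 + 0) {x | AS.alive (1 + 0) x} := rfl
  rw [h3]
  linarith

/-- lower bound for all large `n`, with a constant which does not depend on the alphabet -/
theorem E_lower (k : ℕ) (hk : 2 ≤ k) :
    ∀ᶠ n : ℕ in atTop, (n:ℝ)^2 / 12800 ≤ SI.E (Fin k) n := by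
  classical
  obtain ⟨m0, hm⟩ := SI.lower_sum k hk
  filter_upwards [eventually_ge_atTop (m0 + 1)] with n hn
  obtain ⟨m, rfl⟩ : ∃ m, n = m + 1 := ⟨n - 1, by omega⟩
  have h1 := hm m (by omega)
  have h2 := SI.E_mul (Fin k) m
  have : NeZero k := ⟨by omega⟩
  have hne : (SI.R (Fin k) (m+1)).Nonempty := SI.R_nonempty _ (m+1) (by omega)
  obtain ⟨L, hL⟩ := hne
  have hcard := SI.fiber_card (m := m) L hL.1 hL.2
  have hpos : 0 < (SI.MinAut (Fin k) m).ncard := by
    rw [Set.ncard_pos (Set.toFinite _)]
    have : 0 < {x | x ∈ SI.MinAut (Fin k) m ∧ SI.lang x = L}.ncard := by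
      rw [hcard]; exact Nat.factorial_pos _
    obtain ⟨x, hx⟩ := (Set.ncard_pos (Set.toFinite _)).1 this
    exact ⟨x, hx.1⟩
  have hpos' : (0:ℝ) < ((SI.MinAut (Fin k) m).ncard : ℝ)^2 := by positivity
  rw [← h2] at h1
  push_cast
  rw [div_le_iff₀ (by norm_num)]
  have h3 : ((m:ℝ)+1)^2 * ((SI.MinAut (Fin k) m).ncard : ℝ)^2
      ≤ (SI.E (Fin k) (m+1) * 12800) * ((SI.MinAut (Fin k) m).ncard : ℝ)^2 := by
    calc _ ≤ _ := h1
      _ = _ := by ring
  exact le_of_mul_le_mul_right h3 hpos'

/-- **Theorem.** Let `A` be a finite alphabet with `k ≥ 2` letters.  Let `lam` be the unique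
positive solution of `lam = k (1 - exp (-lam))`.  The explicit sequence `alpha k lam m` is
nonincreasing in `m` and tends to a constant `c` with `0 < c < 1`, and the mean state complexity
`E A n` of the intersection of two independent uniformly random regular languages of state
complexity `n` satisfies `E A n / n² → c`, that is `E A n ~ c n²`. -/
theorem result (A : Type) [Finite A] (hA : 2 ≤ Nat.card A) :
    (∀ n : ℕ, 1 ≤ n → (R A n).Finite ∧ (R A n).Nonempty) ∧
    ∃ lam c : ℝ,
      (0 < lam ∧ lam = (Nat.card A : ℝ) * (1 - Real.exp (-lam)) ∧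
        ∀ x : ℝ, 0 < x → x = (Nat.card A : ℝ) * (1 - Real.exp (-x)) → x = lam) ∧
      Antitone (alpha (Nat.card A) lam) ∧
      Tendsto (alpha (Nat.card A) lam) atTop (𝓝 c) ∧
      0 < c ∧ c < 1 ∧
      Tendsto (fun n : ℕ => E A n / (n:ℝ)^2) atTop (𝓝 c) ∧
      (fun n : ℕ => E A n) ~[atTop] (fun n : ℕ => c * (n:ℝ)^2) := by
  classical
  set k := Nat.card A with hkdef
  have : Nonempty A := (Nat.card_pos_iff.1 (by omega)).1
  refine ⟨fun n hn => ⟨SI.R_finite A n, SI.R_nonempty A n hn⟩, ?_⟩
  have hk1 : (1:ℝ) < k := by exact_mod_cast (by omega : 1 < k)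
  obtain ⟨lam, ⟨h0, hlam⟩, huniq⟩ := AS.lam_exists (k:ℝ) hk1
  obtain ⟨ht, hle, -⟩ := AS.al_tendsto k hA lam h0
  have hfun : alpha k lam = AS.al k lam := funext (fun m => alpha_eq k (by omega) lam h0 m)
  have hmain := AS.main_limit k lam hA h0 hlam
  have hE : ∀ n, E A n = SI.E (Fin k) n := fun n => by
    rw [E_eq, SI.E_map A (Fin k) (Finite.equivFin A) n]
  have hcpos : (0:ℝ) < ⨅ m, AS.al k lam m := by
    have h1 : (1/12800 : ℝ) ≤ ⨅ m, AS.al k lam m := by
      refine ge_of_tendsto hmain ?_
      filter_upwards [E_lower k hA, eventually_ge_atTop 1] with n hn h1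
      have hn0 : (0:ℝ) < (n:ℝ)^2 := by
        have : (0:ℝ) < (n:ℝ) := by exact_mod_cast h1
        positivity
      rw [le_div_iff₀ hn0]
      calc (1/12800 : ℝ) * (n:ℝ)^2 = (n:ℝ)^2 / 12800 := by ring
        _ ≤ _ := hn
    linarith
  refine ⟨lam, ⨅ m, AS.al k lam m, ⟨h0, hlam, fun x hx hx' => huniq x ⟨hx, hx'⟩⟩, ?_, ?_, hcpos,
    lt_of_le_of_lt (hle 1) (al_one_lt k hA lam h0), ?_, ?_⟩
  · rw [hfun]; exact AS.al_antitone k hA lam h0
  · rw [hfun]; exact ht
  · simp only [hE]; exact hmain
  · simp only [hE]
    refine (isEquivalent_iff_tendsto_one ?_).2 ?_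
    · filter_upwards [eventually_ge_atTop 1] with n hn
      have : (0:ℝ) < (n:ℝ) := by exact_mod_cast hn
      positivity
    · have h1 : Tendsto (fun n : ℕ => (SI.E (Fin k) n / (n:ℝ)^2) / (⨅ m, AS.al k lam m)) atTop
          (𝓝 ((⨅ m, AS.al k lam m) / (⨅ m, AS.al k lam m))) := hmain.div_const _
      rw [div_self hcpos.ne'] at h1
      refine h1.congr (fun n => ?_)
      simp only [Pi.div_apply]
      rw [div_div, mul_comm ((n:ℝ)^2)]

end Pool.Agent.Results.MP_6663ab_lc.ExactAsymptotics
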