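import Mathlib
import Pool.Agent.Helper513.SI.M6
import Pool.Agent.Helper513.SI.Jc

/-
Average state complexity of the intersection of two random regular languages.

`A` is a finite alphabet with at least two letters.  `R A n` is the set of all regular languages
over `A` whose minimal complete deterministic automaton has exactly `n` states, and `E A n` is the
mean of the state complexity of `L ⊓ L'` over all pairs `(L, L')` in `R A n × R A n`
(two independent uniformly random elements of the finite set `R A n`).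
-/

namespace Pool.Agent.Results.MP_6663ab_lc.QuadraticOrder

open Filter Topology Asymptotics

set_option autoImplicit false

/-- State complexity of a language: the least number of states of a complete deterministic
automaton recognising it. -/
noncomputable def sc {A : Type} (L : Language A) : ℕ :=
  sInf {n | ∃ M : DFA A (Fin n), M.accepts = L}

/-- The regular languages over `A` of state complexity `n`. -/
def R (A : Type) (n : ℕ) : Set (Language A) := {L | L.IsRegular ∧ sc L = n}

/-- The expected state complexity of the intersection of two independent uniformly random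
languages of state complexity `n`. -/
noncomputable def E (A : Type) (n : ℕ) : ℝ :=
  (∑ᶠ p ∈ (R A n) ×ˢ (R A n), (sc (p.1 ⊓ p.2) : ℝ)) / ((R A n).ncard : ℝ)^2

theorem E_eq (A : Type) (n : ℕ) : E A n = SI.E A n := rfl

theorem R_eq (A : Type) (n : ℕ) : R A n = SI.R A n := rfl

/-- trivial bounds -/
theorem E_bounds (A : Type) [Finite A] [Nonempty A] (n : ℕ) (hn : 1 ≤ n) :
    1 ≤ E A n ∧ E A n ≤ (n:ℝ)^2 := by
  classical
  have hfin : (SI.R A n).Finite := SI.R_finite A n
  have hne : (SI.R A n).Nonempty := SI.R_nonempty A n hn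
  have hc : 0 < (SI.R A n).ncard := (Set.ncard_pos hfin).2 hne
  have hfin2 : (SI.R A n ×ˢ SI.R A n).Finite := hfin.prod hfin
  have hsum : (∑ᶠ p ∈ (SI.R A n) ×ˢ (SI.R A n), (SI.sc (p.1 ⊓ p.2) : ℝ))
      = ∑ p ∈ hfin2.toFinset, (SI.sc (p.1 ⊓ p.2) : ℝ) := by
    rw [finsum_mem_eq_finite_toFinset_sum _ hfin2]
  have hcard : (hfin2.toFinset.card : ℝ) = ((SI.R A n).ncard : ℝ)^2 := by
    rw [← Set.ncard_eq_toFinset_card _ hfin2, Set.ncard_prod, sq]
    push_cast
    ring
  have hpos : (0:ℝ) < ((SI.R A n).ncard : ℝ)^2 := by positivity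
  rw [E_eq]
  unfold SI.E
  rw [hsum]
  constructor
  · rw [le_div_iff₀ hpos, one_mul, ← hcard]
    rw [← nsmul_one, ← Finset.sum_const]
    apply Finset.sum_le_sum
    intro p hp
    rw [Set.Finite.mem_toFinset] at hp
    have := SI.sc_pos (p.1 ⊓ p.2) (SI.inter_regular _ _ hp.1.1 hp.2.1)
    exact_mod_cast this
  · rw [div_le_iff₀ hpos, ← hcard, mul_comm, ← nsmul_eq_mul, ← Finset.sum_const]
    apply Finset.sum_le_sum
    intro p hp
    rw [Set.Finite.mem_toFinset] at hp
    have h1 := SI.sc_inter_le p.1 p.2 hp.1.1 hp.2.1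
    rw [hp.1.2, hp.2.2] at h1
    have : (SI.sc (p.1 ⊓ p.2) : ℝ) ≤ ((n * n : ℕ) : ℝ) := by exact_mod_cast h1
    rw [sq]
    exact_mod_cast this

/-- lower bound for all large `n`, with a constant which does not depend on the alphabet -/
theorem E_lower (A : Type) [Finite A] (hA : 2 ≤ Nat.card A) :
    ∀ᶠ n : ℕ in atTop, (n:ℝ)^2 / 12800 ≤ E A n := by
  classical
  obtain ⟨m0, hm⟩ := SI.lower_sum (Nat.card A) hA
  filter_upwards [eventually_ge_atTop (m0 + 1)] with n hn
  obtain ⟨m, rfl⟩ : ∃ m, n = m + 1 := ⟨n - 1, by omega⟩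
  have h1 := hm m (by omega)
  rw [E_eq, SI.E_map A (Fin (Nat.card A)) (Finite.equivFin A) (m+1)]
  have h2 := SI.E_mul (Fin (Nat.card A)) m
  haveI : NeZero (Nat.card A) := ⟨by omega⟩
  have hne : (SI.R (Fin (Nat.card A)) (m+1)).Nonempty := SI.R_nonempty _ (m+1) (by omega)
  obtain ⟨L, hL⟩ := hne
  have hcard := SI.fiber_card (m := m) L hL.1 hL.2
  have hpos : 0 < (SI.MinAut (Fin (Nat.card A)) m).ncard := by
    rw [Set.ncard_pos (Set.toFinite _)]
    have : 0 < {x | x ∈ SI.MinAut (Fin (Nat.card A)) m ∧ SI.lang x = L}.ncard := by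
      rw [hcard]; exact Nat.factorial_pos _
    obtain ⟨x, hx⟩ := (Set.ncard_pos (Set.toFinite _)).1 this
    exact ⟨x, hx.1⟩
  have hpos' : (0:ℝ) < ((SI.MinAut (Fin (Nat.card A)) m).ncard : ℝ)^2 := by positivity
  rw [← h2] at h1
  push_cast
  rw [div_le_iff₀ (by norm_num)]
  have h3 : ((m:ℝ)+1)^2 * ((SI.MinAut (Fin (Nat.card A)) m).ncard : ℝ)^2
      ≤ (SI.E (Fin (Nat.card A)) (m+1) * 12800) * ((SI.MinAut (Fin (Nat.card A)) m).ncard : ℝ)^2 := by
    calc _ ≤ _ := h1
      _ = _ := by ring
  exact le_of_mul_le_mul_right h3 hpos'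

/-- **Theorem.** For every finite alphabet `A` with at least two letters the mean state complexity
of the intersection of two independent uniformly random regular languages of state complexity `n`
is of order exactly `n²`: it is a quadratic function of `n` up to constant factors, the lower bound
being `n² / 12800` for all large `n`, for every alphabet. -/
theorem result (A : Type) [Finite A] (hA : 2 ≤ Nat.card A) :
    (∀ n : ℕ, 1 ≤ n → (R A n).Finite ∧ (R A n).Nonempty) ∧
    (∃ c : ℝ, 0 < c ∧ ∀ n : ℕ, 1 ≤ n → c * (n:ℝ)^2 ≤ E A n ∧ E A n ≤ (n:ℝ)^2) ∧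
    (∀ᶠ n : ℕ in atTop, (n:ℝ)^2 / 12800 ≤ E A n) ∧
    (fun n : ℕ => E A n) =Θ[atTop] (fun n : ℕ => (n:ℝ)^2) := by
  haveI : Nonempty A := (Nat.card_pos_iff.1 (by omega)).1
  have hlow := E_lower A hA
  obtain ⟨n0, hn0⟩ := eventually_atTop.1 hlow
  refine ⟨fun n hn => ⟨SI.R_finite A n, SI.R_nonempty A n hn⟩, ?_, hlow, ?_⟩
  · refine ⟨min (1/12800) (1/((n0:ℝ)+1)^2), by positivity, fun n hn => ⟨?_, (E_bounds A n hn).2⟩⟩
    by_cases h : n0 ≤ n
    · refine le_trans ?_ (hn0 n h)
      have : min (1/12800) (1/((n0:ℝ)+1)^2) ≤ (1/12800 : ℝ) := min_le_left _ _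
      nlinarith [sq_nonneg (n:ℝ)]
    · push_neg at h
      refine le_trans ?_ (E_bounds A n hn).1
      have h1 : min (1/12800) (1/((n0:ℝ)+1)^2) ≤ 1/((n0:ℝ)+1)^2 := min_le_right _ _
      have h2 : (n:ℝ)^2 ≤ ((n0:ℝ)+1)^2 := by
        have : (n:ℝ) ≤ (n0:ℝ) + 1 := by
          have : (n:ℝ) ≤ (n0:ℝ) := by exact_mod_cast h.le
          linarith
        exact pow_le_pow_left₀ (by positivity) this 2
      calc _ ≤ 1/((n0:ℝ)+1)^2 * (n:ℝ)^2 := by gcongr
        _ ≤ 1/((n0:ℝ)+1)^2 * ((n0:ℝ)+1)^2 := by gcongr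
        _ = 1 := by field_simp
  · refine ⟨?_, ?_⟩
    · refine IsBigO.of_bound 1 ?_
      filter_upwards [eventually_ge_atTop 1] with n hn
      have h := E_bounds A n hn
      rw [Real.norm_of_nonneg (by linarith [h.1]), Real.norm_of_nonneg (by positivity), one_mul]
      exact h.2
    · refine IsBigO.of_bound 12800 ?_
      filter_upwards [hlow, eventually_ge_atTop 1] with n hn h1
      have h := E_bounds A n h1
      rw [Real.norm_of_nonneg (by positivity), Real.norm_of_nonneg (by linarith [h.1])]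
      linarith

end Pool.Agent.Results.MP_6663ab_lc.QuadraticOrder
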